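import Pool.Agent.H2.FtC

set_option autoImplicit false

namespace Pool.Agent.Results.MP_5df1f6_co.Missing
open Finset Pool.Agent.H2.Ft

open Classical in
/-- number of vertex triples x < y < z that induce an odd number of edges -/
noncomputable def frus {n : ℕ} (G : SimpleGraph (Fin n)) : ℕ :=
  ((univ : Finset (Fin n × Fin n × Fin n)).filter fun p => p.1 < p.2.1 ∧ p.2.1 < p.2.2 ∧
    Odd ((if G.Adj p.1 p.2.1 then 1 else 0) + (if G.Adj p.2.1 p.2.2 then 1 else 0)
      + (if G.Adj p.1 p.2.2 then 1 else 0) : ℕ)).card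

/-- the set S_t of values of frus on n-vertex graphs with exactly t edges -/
def S (n t : ℕ) : Set ℕ := {m | ∃ G : SimpleGraph (Fin n), G.edgeSet.ncard = t ∧ frus G = m}

open Classical in
noncomputable def adj {n : ℕ} (G : SimpleGraph (Fin n)) : Fin n → Fin n → ℤ :=
  fun x y => if G.Adj x y then 1 else 0

theorem adj_valid {n : ℕ} (G : SimpleGraph (Fin n)) : Valid (adj G) := by
  refine ⟨fun x y => ?_, fun x => by simp [adj], fun x y => ?_⟩
  · unfold adj
    by_cases h : G.Adj x y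
    · rw [if_pos h, if_pos h.symm]
    · rw [if_neg h, if_neg fun h' => h h'.symm]
  · unfold adj; split_ifs <;> simp

theorem E_adj {n : ℕ} (G : SimpleGraph (Fin n)) : E (adj G) = 2 * (G.edgeSet.ncard : ℤ) := by
  classical
  have h1 := G.sum_degrees_eq_twice_card_edges
  have h2 : G.edgeSet.ncard = G.edgeFinset.card := by
    rw [← SimpleGraph.coe_edgeFinset, Set.ncard_coe_finset]
  rw [h2]
  have h3 : ∀ x, ∑ y, adj G x y = (G.degree x : ℤ) := by
    intro x
    unfold adj
    rw [sum_boole, ← SimpleGraph.card_neighborFinset_eq_degree, SimpleGraph.neighborFinset_eq_filter]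
  unfold E
  simp only [h3]
  exact_mod_cast h1

theorem frus_adj {n : ℕ} (G : SimpleGraph (Fin n)) :
    (frus G : ℤ) = ∑ x, ∑ y, ∑ z, hh (adj G) x y z := by
  unfold frus
  rw [card_filter, Fintype.sum_prod_type]
  push_cast
  refine sum_congr rfl fun x _ => ?_
  rw [Fintype.sum_prod_type]
  refine sum_congr rfl fun y _ => sum_congr rfl fun z _ => ?_
  unfold hh par adj
  by_cases h1 : x < y <;> by_cases h2 : y < z <;> by_cases h3 : G.Adj x y <;>
    by_cases h4 : G.Adj y z <;> by_cases h5 : G.Adj x z <;> simp [h1, h2, h3, h4, h5] <;> decide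

theorem of_valid {n : ℕ} {a : Fin n → Fin n → ℤ} (h : Valid a) :
    ∃ G : SimpleGraph (Fin n), adj G = a := by
  refine ⟨SimpleGraph.fromRel fun x y => a x y = 1, ?_⟩
  funext x y
  unfold adj
  simp only [SimpleGraph.fromRel_adj]
  rw [h.symm y x]
  by_cases hxy : x = y
  · subst hxy; simp [h.diag]
  · rcases h.bin x y with h1 | h1 <;> simp [h1, hxy]

theorem ch2 (k : ℕ) : 2 * (k.choose 2 : ℤ) = k * (k - 1) := by
  induction k with
  | zero => simp
  | succ k ih => rw [Nat.choose_succ_succ' k 1]; simp; linarith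

theorem gap_iff (t D : ℕ) : Gap t D ↔ ∃ d, 1 ≤ d ∧ d ≤ t ∧
    (d - 1).choose 2 + (t - d + 2).choose 2 < D ∧ D < d.choose 2 := by
  have key : ∀ d : ℕ, 1 ≤ d → d ≤ t → ((2 * (D : ℤ) < d * (d - 1) ∧
      ((d : ℤ) - 1) * (d - 2) + (t - d + 1) * (t - d + 2) < 2 * D) ↔
      ((d - 1).choose 2 + (t - d + 2).choose 2 < D ∧ D < d.choose 2)) := by
    intro d h1 h2
    have e1 := ch2 d
    have e2 := ch2 (d - 1)
    have e3 := ch2 (t - d + 2)
    push_cast [h1, h2] at e2 e3
    constructor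
    · rintro ⟨k1, k2⟩
      constructor
      · zify; linarith
      · zify; linarith
    · rintro ⟨k1, k2⟩
      zify at k1 k2
      constructor <;> linarith
  constructor
  · rintro ⟨d, h1, h2, h3⟩
    lift d to ℕ using by omega
    exact ⟨d, by omega, by omega, (key d (by omega) (by omega)).1 h3⟩
  · rintro ⟨d, h1, h2, h3⟩
    exact ⟨d, by omega, by omega, (key d h1 h2).2 h3⟩

theorem mem_S (n t : ℕ) (ht : t * (t + 1) + 2 < n) (m : ℕ) : m ∈ S n t ↔
    ∃ D, m + 2 * D = t * (n - 2) ∧ D ≤ t.choose 2 ∧ ¬ Gap t D := by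
  have hc := ch2 t
  have hn : ((t * (n - 2) : ℕ) : ℤ) = t * (n - 2) := by push_cast [show 2 ≤ n by omega]; ring
  constructor
  · rintro ⟨G, hG, rfl⟩
    have : Nonempty (Fin n) := ⟨⟨0, by omega⟩⟩
    have hv := adj_valid G
    have hE := E_adj G
    have h6 := six hv
    rw [← frus_adj] at h6
    obtain ⟨t', D, h1, h2, h3, h4⟩ := gen (E (adj G)).toNat _ hv (by omega)
    have : t' = t := by rw [hG] at hE; omega
    subst this
    have hg := no_gap hv h1 h2
    lift D to ℕ using h3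
    refine ⟨D, ?_, by zify; linarith, hg⟩
    rw [h1, h2] at h6
    zify [show 2 ≤ n by omega]; linarith
  · rintro ⟨D, h1, h2, h3⟩
    obtain ⟨a, hv, hE, hW⟩ := realize (V := Fin n) t D (by simp; nlinarith [Nat.le_mul_self t])
      (by zify at h2; linarith) h3
    obtain ⟨G, rfl⟩ := of_valid hv
    have hE' := E_adj G
    have h6 := six hv
    rw [← frus_adj, hE, hW] at h6
    refine ⟨G, by omega, ?_⟩
    zify [show 2 ≤ n by omega] at h1 ⊢; linarith

theorem result (n t : ℕ) (ht : t * (t + 1) + 2 < n) :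
    Set.Icc (t * (n - t - 1)) (t * (n - 2)) \ S n t =
      {m | (t * (n - t - 1) ≤ m ∧ m ≤ t * (n - 2) ∧ Odd (t * (n - 2) - m)) ∨
        ∃ d D, 1 ≤ d ∧ d ≤ t ∧ m + 2 * D = t * (n - 2) ∧
          (d - 1).choose 2 + (t - d + 2).choose 2 < D ∧ D < d.choose 2} := by
  have hc := ch2 t
  have hab : t * (n - t - 1) + 2 * t.choose 2 = t * (n - 2) := by
    have h1 : t + 1 ≤ n := by nlinarith
    have h2 : n - t - 1 = n - (t + 1) := by omega
    rw [h2]; zify [h1, show 2 ≤ n by omega]; linarith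
  ext m
  simp only [Set.mem_diff, Set.mem_Icc, Set.mem_setOf_eq, mem_S n t ht, gap_iff]
  constructor
  · rintro ⟨⟨h1, h2⟩, h3⟩
    rcases Nat.even_or_odd (t * (n - 2) - m) with ⟨D, hD⟩ | ho
    · right
      by_contra hh
      refine h3 ⟨D, by omega, by omega, ?_⟩
      rintro ⟨d, k1, k2, k3⟩
      exact hh ⟨d, D, k1, k2, by omega, k3⟩
    · exact Or.inl ⟨h1, h2, ho⟩
  · rintro (⟨h1, h2, ⟨u, hu⟩⟩ | ⟨d, D, k1, k2, k3, k4, k5⟩)
    · refine ⟨⟨h1, h2⟩, ?_⟩
      rintro ⟨D, e1, -, -⟩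
      omega
    · have := Nat.choose_le_choose 2 k2
      refine ⟨⟨by omega, by omega⟩, ?_⟩
      rintro ⟨D', e1, -, e3⟩
      have : D' = D := by omega
      subst this
      exact e3 ⟨d, k1, k2, k4, k5⟩

end Pool.Agent.Results.MP_5df1f6_co.Missing
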